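import Pool.Agent.H2Q.Fin

/-!
# Cube-free graphs with an abelian group of symmetries have few edges

The graph `H2Q.cube` is the graph of the three dimensional cube: the vertices are the functions
`Fin 3 → Bool`, two of them adjacent when they differ in exactly one coordinate.
`H2Q.cube ⊑ G` says that `G` has a (not necessarily induced) subgraph isomorphic to it.
-/

namespace Pool.Agent.Results.MP_0774fe_co.AbelianSymmetry

open SimpleGraph

/-- **Theorem.** Let `G` be a finite graph without a cube on `n` vertices and with `e` edges, and let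
a finite abelian group `Γ` act on the vertices with `k` orbits, such that for a sign `ε` the map
`(u, v) ↦ (g u, g^ε v)` sends edges to edges for every `g ∈ Γ` (`ε = 1`: `Γ` acts by automorphisms of
`G`; `ε = -1`: sum graphs, polarity graphs). Then `e² ≤ 6 k n³`. -/
theorem result {V Γ : Type*} [Finite V] [CommGroup Γ] [Finite Γ] [MulAction Γ V]
    (G : SimpleGraph V) (ε : ℤ) (hε : ε = 1 ∨ ε = -1)
    (hG : ∀ (g : Γ) (u v : V), G.Adj u v → G.Adj (g • u) (g ^ ε • v))
    (hfree : ¬ H2Q.cube ⊑ G) :
    Nat.card G.edgeSet ^ 2 ≤ 6 * Nat.card (MulAction.orbitRel.Quotient Γ V) * Nat.card V ^ 3 :=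
  H2Q.main G ε hε hG hfree

end Pool.Agent.Results.MP_0774fe_co.AbelianSymmetry
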