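import Pool.Agent.H94Q.Lim

/-!
# A lower bound for the extremal number of the cube

The graph `H2Q.cube` is the graph of the three dimensional cube: the vertices are the functions
`Fin 3 → Bool`, two of them adjacent when they differ in exactly one coordinate.
`SimpleGraph.extremalNumber n H` is the largest number of edges of a graph on `n` vertices without a
copy of `H`.

The construction (`H94Q.gr`): let `F` be the field with `p` elements, `-1` and `2` not squares. The
vertices are five copies of `F × F`; the copies have the colours `0, 1, 2, 3, 3`, the colour `k` stands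
for the vector `v_k = (1,0), (0,1), (1,1), (1,-1)`. A vertex `(t, c)` of colour `k` gives the point
`(a, b, c)` of the line `a p_k + b q_k = -c²`, and two vertices of different colours `k, k'` are adjacent
if `a p_k' + b q_k' + a' p_k + b' q_k + 2 c c' = 0`. The passage to all `n` uses the prime number theorem
in arithmetic progressions (`H94Q.primes_short_AP`, proved from Mathlib's Dirichlet `L`-functions).
-/

namespace Pool.Agent.Results.MP_0774fe_co.LowerConstant

open SimpleGraph

/-- **Theorem.** (1) For every prime `p ≡ 3 (mod 8)`, `p ≥ 11`, and every `n ≥ 5 p²` there is a graph on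
`n` vertices with `9 p³` edges and without a cube. (2) For every `c < 9 / 5^(3/2) = 0.8049...` and all
large `n`, `ex(n, Q_8) ≥ c n^(3/2)`. -/
theorem result :
    (∀ p : ℕ, p.Prime → p % 8 = 3 → 11 ≤ p → ∀ n : ℕ, 5 * p ^ 2 ≤ n →
      9 * p ^ 3 ≤ extremalNumber n H2Q.cube) ∧
    ∀ c : ℝ, c < 9 / (5 : ℝ) ^ (3 / 2 : ℝ) → ∀ᶠ n : ℕ in Filter.atTop,
      c * (n : ℝ) ^ (3 / 2 : ℝ) ≤ (extremalNumber n H2Q.cube : ℝ) :=
  ⟨fun p hp h8 h11 n hn => H94Q.main_prime p hp h8 h11 n hn, H94Q.main_lim⟩

end Pool.Agent.Results.MP_0774fe_co.LowerConstant
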